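import Mathlib

set_option autoImplicit false

namespace Pool.Agent.H14.AlgCore

open MvPolynomial

section cmap
variable {σ R S : Type*} [CommRing R] [CommRing S]

/-- coefficientwise application of an additive map -/
noncomputable def cmap (f : R →+ S) (p : MvPolynomial σ R) : MvPolynomial σ S :=
  ∑ β ∈ p.support, monomial β (f (p.coeff β))

lemma coeff_cmap (f : R →+ S) (p : MvPolynomial σ R) (γ : σ →₀ ℕ) :
    (cmap f p).coeff γ = f (p.coeff γ) := by
  classical
  simp only [cmap, coeff_sum, coeff_monomial]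
  rw [Finset.sum_ite_eq' p.support γ]
  split_ifs with h
  · rfl
  · rw [notMem_support_iff.mp h, map_zero]

lemma cmap_zero (f : R →+ S) : cmap f (0 : MvPolynomial σ R) = 0 := by
  ext γ; simp [coeff_cmap]

lemma cmap_add (f : R →+ S) (p q : MvPolynomial σ R) : cmap f (p + q) = cmap f p + cmap f q := by
  ext γ; simp [coeff_cmap]

lemma cmap_sum (f : R →+ S) {ι : Type*} (s : Finset ι) (p : ι → MvPolynomial σ R) :
    cmap f (∑ i ∈ s, p i) = ∑ i ∈ s, cmap f (p i) := by
  ext γ; simp [coeff_cmap, coeff_sum]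

lemma support_cmap (f : R →+ S) (p : MvPolynomial σ R) : (cmap f p).support ⊆ p.support := by
  intro γ hγ
  rw [mem_support_iff, coeff_cmap] at hγ
  rw [mem_support_iff]
  intro h
  rw [h, map_zero] at hγ
  exact hγ rfl

end cmap

section deriv
variable {σ Ω : Type*} [Field Ω] (X : Derivation ℤ Ω Ω)

/-- the derivation acting on coefficients -/
noncomputable def Xc (p : MvPolynomial σ Ω) : MvPolynomial σ Ω :=
  cmap (X : Ω →ₗ[ℤ] Ω).toAddMonoidHom p

lemma coeff_Xc (p : MvPolynomial σ Ω) (γ : σ →₀ ℕ) : (Xc X p).coeff γ = X (p.coeff γ) := by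
  rw [Xc, coeff_cmap]; rfl

lemma Xc_zero : Xc X (0 : MvPolynomial σ Ω) = 0 := cmap_zero _
lemma Xc_add (p q : MvPolynomial σ Ω) : Xc X (p + q) = Xc X p + Xc X q := cmap_add _ _ _

lemma Xc_mul (p q : MvPolynomial σ Ω) : Xc X (p * q) = Xc X p * q + p * Xc X q := by
  classical
  ext γ
  rw [coeff_add, coeff_Xc, coeff_mul, coeff_mul, coeff_mul, map_sum, ← Finset.sum_add_distrib]
  refine Finset.sum_congr rfl fun a _ => ?_
  rw [coeff_Xc, coeff_Xc, Derivation.leibniz, smul_eq_mul, smul_eq_mul]
  ring

lemma Xc_iter_add (j : ℕ) (p q : MvPolynomial σ Ω) :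
    (Xc X)^[j] (p + q) = (Xc X)^[j] p + (Xc X)^[j] q := by
  induction j generalizing p q with
  | zero => rfl
  | succ j ih => rw [Function.iterate_succ_apply, Function.iterate_succ_apply,
      Function.iterate_succ_apply, Xc_add, ih]

lemma Xc_iter_zero (j : ℕ) : (Xc X)^[j] (0 : MvPolynomial σ Ω) = 0 := by
  induction j with
  | zero => rfl
  | succ j ih => rw [Function.iterate_succ_apply, Xc_zero, ih]

variable {X}

/-- the differential core of an ideal, membership stable under multiplication -/
lemma core_mul {I : Ideal (MvPolynomial σ Ω)} (j : ℕ) :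
    ∀ (R S : MvPolynomial σ Ω), (∀ i ≤ j, (Xc X)^[i] R ∈ I) → (Xc X)^[j] (S * R) ∈ I := by
  induction j with
  | zero => intro R S h; exact I.mul_mem_left S (h 0 le_rfl)
  | succ j ih =>
    intro R S h
    rw [Function.iterate_succ_apply, Xc_mul, Xc_iter_add]
    refine I.add_mem (ih R _ fun i hi => h i (by omega)) (ih _ S fun i hi => ?_)
    rw [← Function.iterate_succ_apply]
    exact h (i + 1) (by omega)

lemma core_lead {I : Ideal (MvPolynomial σ Ω)} (N : ℕ) :
    ∀ (i j : ℕ) (R S : MvPolynomial σ Ω), i + j = N →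
      (∀ a < i, (Xc X)^[a] R ∈ I) → (∀ b < j, (Xc X)^[b] S ∈ I) →
      (Xc X)^[N] (R * S) - (Nat.choose N i : MvPolynomial σ Ω) * ((Xc X)^[i] R * (Xc X)^[j] S) ∈ I := by
  induction N with
  | zero =>
    intro i j R S hij _ _
    have hi : i = 0 := by omega
    have hj : j = 0 := by omega
    subst hi; subst hj
    simp
  | succ N ih =>
    intro i j R S hij hR hS
    have e : (Xc X)^[N + 1] (R * S) = (Xc X)^[N] (Xc X R * S) + (Xc X)^[N] (R * Xc X S) := by
      rw [Function.iterate_succ_apply, Xc_mul, Xc_iter_add]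
    rw [e]
    rcases Nat.eq_zero_or_pos i with hi | hi
    · subst hi
      have hj : j = N + 1 := by omega
      subst hj
      have h1 : (Xc X)^[N] (Xc X R * S) ∈ I := core_mul N S _ fun a ha => hS a (by omega)
      have h2 := ih 0 N R (Xc X S) (by omega) (fun a ha => absurd ha (Nat.not_lt_zero a))
        (fun b hb => by rw [← Function.iterate_succ_apply]; exact hS (b + 1) (by omega))
      rw [← Function.iterate_succ_apply] at h2
      have : (Xc X)^[N] (Xc X R * S) + (Xc X)^[N] (R * Xc X S)
          - ((N + 1).choose 0 : MvPolynomial σ Ω) * ((Xc X)^[0] R * (Xc X)^[N + 1] S)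
          = (Xc X)^[N] (Xc X R * S) + ((Xc X)^[N] (R * Xc X S)
          - (N.choose 0 : MvPolynomial σ Ω) * ((Xc X)^[0] R * (Xc X)^[N + 1] S)) := by
        simp only [Nat.choose_zero_right]; ring
      rw [this]
      exact I.add_mem h1 h2
    · rcases Nat.eq_zero_or_pos j with hj | hj
      · subst hj
        have hi' : i = N + 1 := by omega
        subst hi'
        have h1 : (Xc X)^[N] (R * Xc X S) ∈ I := by
          rw [mul_comm]
          exact core_mul N R _ fun a ha => hR a (by omega)
        have h2 := ih N 0 (Xc X R) S (by omega)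
          (fun a ha => by rw [← Function.iterate_succ_apply]; exact hR (a + 1) (by omega))
          (fun b hb => absurd hb (Nat.not_lt_zero b))
        rw [← Function.iterate_succ_apply] at h2
        have : (Xc X)^[N] (Xc X R * S) + (Xc X)^[N] (R * Xc X S)
            - ((N + 1).choose (N + 1) : MvPolynomial σ Ω) * ((Xc X)^[N + 1] R * (Xc X)^[0] S)
            = (Xc X)^[N] (R * Xc X S) + ((Xc X)^[N] (Xc X R * S)
            - (N.choose N : MvPolynomial σ Ω) * ((Xc X)^[N + 1] R * (Xc X)^[0] S)) := by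
          simp only [Nat.choose_self]; ring
        rw [this]
        exact I.add_mem h1 h2
      · obtain ⟨i', rfl⟩ : ∃ i', i = i' + 1 := ⟨i - 1, by omega⟩
        obtain ⟨j', rfl⟩ : ∃ j', j = j' + 1 := ⟨j - 1, by omega⟩
        have h1 := ih i' (j' + 1) (Xc X R) S (by omega)
          (fun a ha => by rw [← Function.iterate_succ_apply]; exact hR (a + 1) (by omega)) hS
        have h2 := ih (i' + 1) j' R (Xc X S) (by omega) hR
          (fun b hb => by rw [← Function.iterate_succ_apply]; exact hS (b + 1) (by omega))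
        rw [← Function.iterate_succ_apply] at h1 h2
        have hP : ((N + 1).choose (i' + 1) : MvPolynomial σ Ω)
            = (N.choose i' : MvPolynomial σ Ω) + (N.choose (i' + 1) : MvPolynomial σ Ω) := by
          rw [Nat.choose_succ_succ]; push_cast; ring
        have : (Xc X)^[N] (Xc X R * S) + (Xc X)^[N] (R * Xc X S)
            - ((N + 1).choose (i' + 1) : MvPolynomial σ Ω) * ((Xc X)^[i' + 1] R * (Xc X)^[j' + 1] S)
            = ((Xc X)^[N] (Xc X R * S)
              - (N.choose i' : MvPolynomial σ Ω) * ((Xc X)^[i' + 1] R * (Xc X)^[j' + 1] S))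
            + ((Xc X)^[N] (R * Xc X S)
              - (N.choose (i' + 1) : MvPolynomial σ Ω) * ((Xc X)^[i' + 1] R * (Xc X)^[j' + 1] S)) := by
          rw [hP]; ring
        rw [this]
        exact I.add_mem h1 h2

/-- the differential core of a prime ideal is prime -/
lemma core_prime [CharZero Ω] {I : Ideal (MvPolynomial σ Ω)} (hI : I.IsPrime)
    {R S : MvPolynomial σ Ω} (hR : ¬ ∀ j, (Xc X)^[j] R ∈ I) (hS : ¬ ∀ j, (Xc X)^[j] S ∈ I) :
    ¬ ∀ j, (Xc X)^[j] (R * S) ∈ I := by
  classical
  push Not at hR hS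
  intro h
  have h1 := Nat.find_spec hR
  have h2 := Nat.find_spec hS
  set i := Nat.find hR with hi
  set j := Nat.find hS with hj
  have h3 := core_lead (X := X) (I := I) (i + j) i j R S rfl
    (fun a ha => not_not.mp (Nat.find_min hR ha)) (fun b hb => not_not.mp (Nat.find_min hS hb))
  have h4 : (Nat.choose (i + j) i : MvPolynomial σ Ω) * ((Xc X)^[i] R * (Xc X)^[j] S) ∈ I := by
    have h5 := I.sub_mem (h (i + j)) h3
    rwa [sub_sub_cancel] at h5
  rcases hI.mem_or_mem h4 with h5 | h5
  · apply hI.ne_top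
    rw [Ideal.eq_top_iff_one]
    have hne : ((Nat.choose (i + j) i : ℕ) : Ω) ≠ 0 := by
      exact_mod_cast (Nat.choose_pos (Nat.le_add_right i j)).ne'
    have : (1 : MvPolynomial σ Ω) = C ((Nat.choose (i + j) i : Ω)⁻¹) * (Nat.choose (i + j) i : MvPolynomial σ Ω) := by
      rw [← map_natCast (C : Ω →+* MvPolynomial σ Ω), ← C_mul, inv_mul_cancel₀ hne, C_1]
    rw [this]
    exact I.mul_mem_left _ h5
  · rcases hI.mem_or_mem h5 with h6 | h6
    · exact h1 h6
    · exact h2 h6

end deriv

end Pool.Agent.H14.AlgCore
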