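import Mathlib
import Pool.Agent.H14.AlgCore1

set_option autoImplicit false

namespace Pool.Agent.H14.AlgCore

open MvPolynomial

section comp
variable {σ K Ω ι : Type*} [Field K] [Field Ω] [Algebra K Ω] (b : Module.Basis ι K Ω)

/-- the `i`-th coordinate of a polynomial over `Ω` with respect to a `K`-basis -/
noncomputable def comp (i : ι) (R : MvPolynomial σ Ω) : MvPolynomial σ K :=
  cmap (b.coord i).toAddMonoidHom R

lemma coeff_comp (i : ι) (R : MvPolynomial σ Ω) (γ : σ →₀ ℕ) :
    (comp b i R).coeff γ = b.repr (R.coeff γ) i := by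
  rw [comp, coeff_cmap]; rfl

lemma comp_add (i : ι) (p q : MvPolynomial σ Ω) : comp b i (p + q) = comp b i p + comp b i q :=
  cmap_add _ _ _

lemma comp_zero (i : ι) : comp b i (0 : MvPolynomial σ Ω) = 0 := cmap_zero _

lemma comp_map_mul (i : ι) (Q : MvPolynomial σ K) (R : MvPolynomial σ Ω) :
    comp b i (map (algebraMap K Ω) Q * R) = Q * comp b i R := by
  classical
  ext γ
  rw [coeff_comp, coeff_mul, coeff_mul, map_sum, Finset.sum_apply']
  refine Finset.sum_congr rfl fun a _ => ?_
  rw [coeff_map, coeff_comp, ← Algebra.smul_def, map_smul, Finsupp.smul_apply, smul_eq_mul]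

lemma comp_ext {R : MvPolynomial σ Ω} (h : ∀ i, comp b i R = 0) : R = 0 := by
  ext γ
  rw [coeff_zero]
  apply b.repr.injective
  ext i
  rw [← coeff_comp, h i]
  simp

/-- expansion with respect to the basis -/
lemma exists_expansion (R : MvPolynomial σ Ω) :
    ∃ s : Finset ι, R = ∑ i ∈ s, C (b i) * map (algebraMap K Ω) (comp b i R) := by
  classical
  refine ⟨R.support.biUnion fun γ => (b.repr (R.coeff γ)).support, ?_⟩
  ext γ
  rw [coeff_sum]
  simp only [coeff_C_mul, coeff_map, coeff_comp]
  by_cases hγ : γ ∈ R.support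
  · have h1 : ∑ i ∈ R.support.biUnion (fun γ => (b.repr (R.coeff γ)).support),
        b i * algebraMap K Ω (b.repr (R.coeff γ) i)
        = ∑ i ∈ (b.repr (R.coeff γ)).support, b i * algebraMap K Ω (b.repr (R.coeff γ) i) := by
      symm
      apply Finset.sum_subset
      · intro i hi
        exact Finset.mem_biUnion.mpr ⟨γ, hγ, hi⟩
      · intro i _ hi
        rw [Finsupp.notMem_support_iff.mp hi, map_zero, mul_zero]
    rw [h1]
    conv_lhs => rw [← b.linearCombination_repr (R.coeff γ)]
    rw [Finsupp.linearCombination_apply, Finsupp.sum]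
    refine Finset.sum_congr rfl fun i _ => ?_
    rw [Algebra.smul_def, mul_comm]
  · rw [notMem_support_iff.mp hγ]
    simp

lemma comp_sum (i : ι) {κ : Type*} (s : Finset κ) (p : κ → MvPolynomial σ Ω) :
    comp b i (∑ k ∈ s, p k) = ∑ k ∈ s, comp b i (p k) := cmap_sum _ _ _

lemma mem_map_iff {g : Ideal (MvPolynomial σ K)} {R : MvPolynomial σ Ω} :
    R ∈ g.map (map (algebraMap K Ω) : MvPolynomial σ K →+* MvPolynomial σ Ω) ↔
      ∀ i, comp b i R ∈ g := by
  constructor
  · intro h
    refine Submodule.span_induction (p := fun R _ => ∀ i, comp b i R ∈ g) ?_ ?_ ?_ ?_ h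
    · rintro _ ⟨Q, hQ, rfl⟩ i
      have := comp_map_mul b i Q 1
      rw [mul_one] at this
      rw [this]
      exact g.mul_mem_right _ hQ
    · intro i; rw [comp_zero]; exact g.zero_mem
    · intro p q _ _ hp hq i
      rw [comp_add]; exact g.add_mem (hp i) (hq i)
    · intro S p _ hp i
      obtain ⟨s, hs⟩ := exists_expansion b S
      obtain ⟨t, ht⟩ := exists_expansion b p
      have e : S • p = ∑ k ∈ s, ∑ l ∈ t, map (algebraMap K Ω) (comp b l p) *
          (C (b k) * map (algebraMap K Ω) (comp b k S) * C (b l)) := by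
        conv_lhs => rw [smul_eq_mul, hs, ht, Finset.sum_mul_sum]
        refine Finset.sum_congr rfl fun k _ => Finset.sum_congr rfl fun l _ => ?_
        ring
      rw [e, comp_sum]
      refine Ideal.sum_mem _ fun k _ => ?_
      rw [comp_sum]
      refine Ideal.sum_mem _ fun l _ => ?_
      rw [comp_map_mul]
      exact g.mul_mem_right _ (hp l)
  · intro h
    obtain ⟨s, hs⟩ := exists_expansion b R
    rw [hs]
    exact Ideal.sum_mem _ fun i _ => Ideal.mul_mem_left _ _ (Ideal.mem_map_of_mem _ (h i))

include b in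
lemma map_mem_map_iff {g : Ideal (MvPolynomial σ K)} {Q : MvPolynomial σ K} :
    map (algebraMap K Ω) Q ∈ g.map (map (algebraMap K Ω) : MvPolynomial σ K →+* MvPolynomial σ Ω) ↔
      Q ∈ g := by
  constructor
  · intro h
    have h1 := (mem_map_iff b).mp h
    have hne : b.repr (1 : Ω) ≠ 0 := by
      intro h0
      exact one_ne_zero (b.repr.injective (h0.trans (map_zero _).symm))
    obtain ⟨i, hi⟩ := Finsupp.ne_iff.mp hne
    have h2 := h1 i
    have e : comp b i (map (algebraMap K Ω) Q) = C (b.repr (1 : Ω) i) * Q := by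
      ext γ
      rw [coeff_comp, coeff_map, coeff_C_mul, Algebra.algebraMap_eq_smul_one, map_smul,
        Finsupp.smul_apply, smul_eq_mul, mul_comm]
    rw [e] at h2
    have h3 := g.mul_mem_left (C (b.repr (1 : Ω) i)⁻¹) h2
    rw [← mul_assoc, ← C_mul, inv_mul_cancel₀ (by simpa using hi), C_1, one_mul] at h3
    exact h3
  · exact fun h => Ideal.mem_map_of_mem _ h

lemma repr_eval (a : σ → K) (i : ι) (R : MvPolynomial σ Ω) :
    b.repr (eval (fun j => algebraMap K Ω (a j)) R) i = eval a (comp b i R) := by
  induction R using MvPolynomial.induction_on' with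
  | monomial γ ω =>
    have e1 : comp b i (monomial γ ω) = monomial γ (b.repr ω i) := by
      classical
      ext δ
      rw [coeff_comp, coeff_monomial, coeff_monomial]
      split_ifs <;> simp
    rw [e1, eval_monomial, eval_monomial]
    have e2 : (γ.prod fun j k => (algebraMap K Ω (a j)) ^ k)
        = algebraMap K Ω (γ.prod fun j k => a j ^ k) := by
      rw [Finsupp.prod, Finsupp.prod, map_prod]
      simp only [map_pow]
    rw [e2, mul_comm, ← Algebra.smul_def, map_smul, Finsupp.smul_apply, smul_eq_mul, mul_comm]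
  | add p q hp hq => rw [map_add, map_add, Finsupp.add_apply, hp, hq, comp_add, map_add]

/-- extension of scalars of a prime ideal of a polynomial ring over an algebraically closed
field is prime -/
lemma map_prime [Finite σ] [IsAlgClosed K] {g : Ideal (MvPolynomial σ K)} (hg : g.IsPrime) :
    (g.map (map (algebraMap K Ω) : MvPolynomial σ K →+* MvPolynomial σ Ω)).IsPrime := by
  constructor
  · intro h
    apply hg.ne_top
    rw [Ideal.eq_top_iff_one] at h ⊢
    have : (1 : MvPolynomial σ Ω) = map (algebraMap K Ω) (1 : MvPolynomial σ K) := by simp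
    rw [this] at h
    exact (map_mem_map_iff (Module.Basis.ofVectorSpace K Ω)).mp h
  · intro R S hRS
    by_contra hcon
    push Not at hcon
    obtain ⟨hR, hS⟩ := hcon
    set b := Module.Basis.ofVectorSpace K Ω
    rw [mem_map_iff b] at hR hS
    push Not at hR hS
    obtain ⟨i, hi⟩ := hR
    obtain ⟨j, hj⟩ := hS
    have hij : comp b i R * comp b j S ∉ g := fun h => (hg.mem_or_mem h).elim hi hj
    have hrad : vanishingIdeal K (zeroLocus K g) = g := by
      rw [vanishingIdeal_zeroLocus_eq_radical, hg.radical]
    rw [← hrad, mem_vanishingIdeal_iff] at hij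
    push Not at hij
    obtain ⟨a, ha, hne⟩ := hij
    rw [mem_zeroLocus_iff] at ha
    have hne' : eval a (comp b i R) ≠ 0 ∧ eval a (comp b j S) ≠ 0 := by
      rw [map_mul] at hne
      simpa [aeval_eq_eval] using hne
    have h1 : eval (fun j => algebraMap K Ω (a j)) (R * S) = 0 := by
      have key : g.map (map (algebraMap K Ω) : MvPolynomial σ K →+* MvPolynomial σ Ω)
          ≤ RingHom.ker (eval (fun j => algebraMap K Ω (a j)) : MvPolynomial σ Ω →+* Ω) := by
        rw [Ideal.map_le_iff_le_comap]
        intro Q hQ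
        rw [Ideal.mem_comap, RingHom.mem_ker, eval_map]
        have h3 := ha Q hQ
        have h4 : eval₂ (algebraMap K Ω) (fun j => algebraMap K Ω (a j)) Q
            = algebraMap K Ω (eval a Q) := by
          have h6 := MvPolynomial.eval₂_comp_left (algebraMap K Ω) (RingHom.id K) a Q
          rw [eval₂_id] at h6
          rw [h6]; rfl
        rw [h4]
        have h5 : eval a Q = 0 := by simpa [aeval_eq_eval] using h3
        rw [h5, map_zero]
      exact key hRS
    rw [map_mul] at h1
    rcases mul_eq_zero.mp h1 with h2 | h2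
    · apply hne'.1
      rw [← repr_eval, h2]; simp
    · apply hne'.2
      rw [← repr_eval, h2]; simp

end comp

end Pool.Agent.H14.AlgCore
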