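import Mathlib
import Pool.Agent.H14.AlgCore2

set_option autoImplicit false

namespace Pool.Agent.H14.AlgCore

open MvPolynomial

section nil
variable {Ω : Type*} [Field Ω] (X : Derivation ℤ Ω Ω)

lemma iter_zero (j : ℕ) : (X : Ω → Ω)^[j] 0 = 0 := by
  induction j with
  | zero => rfl
  | succ j ih => rw [Function.iterate_succ_apply, map_zero, ih]

lemma iter_add (j : ℕ) (p q : Ω) : (X : Ω → Ω)^[j] (p + q) = (X : Ω → Ω)^[j] p + (X : Ω → Ω)^[j] q := by
  induction j generalizing p q with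
  | zero => rfl
  | succ j ih => rw [Function.iterate_succ_apply, Function.iterate_succ_apply,
      Function.iterate_succ_apply, map_add, ih]

lemma iter_ge {j k : ℕ} (h : j ≤ k) {p : Ω} (hp : (X : Ω → Ω)^[j] p = 0) : (X : Ω → Ω)^[k] p = 0 := by
  obtain ⟨d, rfl⟩ := Nat.exists_eq_add_of_le h
  rw [add_comm, Function.iterate_add_apply, hp, iter_zero]

lemma iter_mul (N : ℕ) : ∀ (a b : ℕ) (u w : Ω), a + b = N → (X : Ω → Ω)^[a + 1] u = 0 →
    (X : Ω → Ω)^[b + 1] w = 0 → (X : Ω → Ω)^[N + 1] (u * w) = 0 := by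
  induction N with
  | zero =>
    intro a b u w hab hu hw
    have ha : a = 0 := by omega
    have hb : b = 0 := by omega
    subst ha; subst hb
    simp only [zero_add, Function.iterate_one] at hu hw ⊢
    rw [Derivation.leibniz, hu, hw]; simp
  | succ N ih =>
    intro a b u w hab hu hw
    rw [Function.iterate_succ_apply, Derivation.leibniz, iter_add]
    have h1 : (X : Ω → Ω)^[N + 1] (u • X w) = 0 := by
      rcases Nat.eq_zero_or_pos b with hb | hb
      · subst hb
        simp only [zero_add, Function.iterate_one] at hw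
        rw [hw, smul_zero, iter_zero]
      · obtain ⟨b', rfl⟩ : ∃ b', b = b' + 1 := ⟨b - 1, by omega⟩
        exact ih a b' u (X w) (by omega) hu (by rw [← Function.iterate_succ_apply]; exact hw)
    have h2 : (X : Ω → Ω)^[N + 1] (w • X u) = 0 := by
      rcases Nat.eq_zero_or_pos a with ha | ha
      · subst ha
        simp only [zero_add, Function.iterate_one] at hu
        rw [hu, smul_zero, iter_zero]
      · obtain ⟨a', rfl⟩ : ∃ a', a = a' + 1 := ⟨a - 1, by omega⟩
        rw [smul_eq_mul, mul_comm]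
        exact ih a' b (X u) w (by omega) (by rw [← Function.iterate_succ_apply]; exact hu) hw
    rw [h1, h2, add_zero]

lemma iter_pow {u : Ω} (hu : X (X u) = 0) (k : ℕ) : (X : Ω → Ω)^[k + 1] (u ^ k) = 0 := by
  induction k with
  | zero => simp
  | succ k ih =>
    rw [pow_succ]
    exact iter_mul X (k + 1) k 1 _ _ rfl ih hu

lemma iter_prod {ι : Type*} (s : Finset ι) (e : ι → ℕ) (u : ι → Ω) (hu : ∀ i, X (X (u i)) = 0) :
    (X : Ω → Ω)^[(∑ i ∈ s, e i) + 1] (∏ i ∈ s, u i ^ e i) = 0 := by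
  classical
  induction s using Finset.induction_on with
  | empty => simp
  | insert i s hi ih =>
    rw [Finset.sum_insert hi, Finset.prod_insert hi]
    exact iter_mul X _ _ _ _ _ rfl (iter_pow X (hu i) _) ih

end nil

section main
variable {K Ω : Type*} [Field K] [Field Ω] [Algebra K Ω] {m n : ℕ}

/-- derivations of `Ω` whose restriction to `K` is a combination of the `Dk i` -/
def IsL (Dk : Fin m → K → K) (δ : Derivation ℤ Ω Ω) : Prop :=
  ∃ c : Fin m → Ω, ∀ a : K, δ (algebraMap K Ω a) = ∑ i, c i * algebraMap K Ω (Dk i a)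

lemma IsL.bracket {Dk : Fin m → K → K} (hcomm : ∀ i j a, Dk i (Dk j a) = Dk j (Dk i a))
    {δ₁ δ₂ : Derivation ℤ Ω Ω} (h₁ : IsL Dk δ₁) (h₂ : IsL Dk δ₂) : IsL Dk ⁅δ₁, δ₂⁆ := by
  obtain ⟨c, hc⟩ := h₁
  obtain ⟨d, hd⟩ := h₂
  refine ⟨fun i => δ₁ (d i) - δ₂ (c i), fun a => ?_⟩
  rw [Derivation.commutator_apply, hc, hd, map_sum, map_sum]
  simp only [Derivation.leibniz, smul_eq_mul, hc, hd, Finset.sum_add_distrib, sub_mul,
    Finset.sum_sub_distrib, Finset.mul_sum]
  have e : ∑ i, ∑ j, d i * (c j * algebraMap K Ω (Dk j (Dk i a)))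
      = ∑ i, ∑ j, c i * (d j * algebraMap K Ω (Dk j (Dk i a))) := by
    rw [Finset.sum_comm]
    refine Finset.sum_congr rfl fun i _ => Finset.sum_congr rfl fun j _ => ?_
    rw [hcomm i j]; ring
  rw [e]
  have e1 : ∑ i, algebraMap K Ω (Dk i a) * δ₁ (d i) = ∑ i, δ₁ (d i) * algebraMap K Ω (Dk i a) :=
    Finset.sum_congr rfl fun i _ => mul_comm _ _
  have e2 : ∑ i, algebraMap K Ω (Dk i a) * δ₂ (c i) = ∑ i, δ₂ (c i) * algebraMap K Ω (Dk i a) :=
    Finset.sum_congr rfl fun i _ => mul_comm _ _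
  rw [e1, e2]
  ring

/-- monomials in `x` -/
noncomputable def mon (x : Fin n → K) (β : Fin n →₀ ℕ) : K := ∏ j, x j ^ β j

/-- words in the `Dk i` -/
def word (Dk : Fin m → K → K) (l : List (Fin m)) (a : K) : K := l.foldr (fun i b => Dk i b) a

/-- the pairing -/
noncomputable def B (f : (Fin n →₀ ℕ) → Ω) (R : MvPolynomial (Fin n) Ω) : Ω :=
  ∑ β ∈ R.support, R.coeff β * f β

lemma B_eq_of_subset (f : (Fin n →₀ ℕ) → Ω) (R : MvPolynomial (Fin n) Ω) {s : Finset (Fin n →₀ ℕ)}
    (hs : R.support ⊆ s) : B f R = ∑ β ∈ s, R.coeff β * f β := by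
  rw [B]
  apply Finset.sum_subset hs
  intro β _ hβ
  rw [notMem_support_iff.mp hβ, zero_mul]

lemma B_deriv (X : Derivation ℤ Ω Ω) (f : (Fin n →₀ ℕ) → Ω) (R : MvPolynomial (Fin n) Ω) :
    X (B f R) = B (fun β => X (f β)) R + B f (Xc X R) := by
  rw [B_eq_of_subset f (Xc X R) (support_cmap _ R), B, B, map_sum, ← Finset.sum_add_distrib]
  refine Finset.sum_congr rfl fun β _ => ?_
  rw [Derivation.leibniz, coeff_Xc, smul_eq_mul, smul_eq_mul]
  ring

lemma B_congr {f g : (Fin n →₀ ℕ) → Ω} {R : MvPolynomial (Fin n) Ω} {t : ℕ}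
    (hR : ∀ β ∈ R.support, β.degree ≤ t) (h : ∀ β, β.degree ≤ t → f β = g β) : B f R = B g R :=
  Finset.sum_congr rfl fun β hβ => by rw [h β (hR β hβ)]

/-- functions produced from iterates of `X` by at most `w` derivations in `L` -/
inductive SS (X : Derivation ℤ Ω Ω) (Dk : Fin m → K → K) : ℕ → (K → Ω) → Prop
  | base (w l : ℕ) : SS X Dk w (fun a => (X : Ω → Ω)^[l] (algebraMap K Ω a))
  | der {w : ℕ} {φ : K → Ω} (δ : Derivation ℤ Ω Ω) (hδ : IsL Dk δ) (h : SS X Dk w φ) :
      SS X Dk (w + 1) (fun a => δ (φ a))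
  | smul {w : ℕ} {φ : K → Ω} (ω : Ω) (h : SS X Dk w φ) : SS X Dk w (fun a => ω * φ a)
  | add {w : ℕ} {φ ψ : K → Ω} (h₁ : SS X Dk w φ) (h₂ : SS X Dk w ψ) :
      SS X Dk w (fun a => φ a + ψ a)

lemma SS.deriv {X : Derivation ℤ Ω Ω} {Dk : Fin m → K → K}
    (hcomm : ∀ i j a, Dk i (Dk j a) = Dk j (Dk i a)) (hXL : IsL Dk X)
    {w : ℕ} {φ : K → Ω} (h : SS X Dk w φ) : SS X Dk w (fun a => X (φ a)) := by
  induction h with
  | base w l =>
    have := SS.base (X := X) (Dk := Dk) w (l + 1)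
    simpa only [Function.iterate_succ_apply'] using this
  | @der w φ δ hδ _ ih =>
    have h1 := SS.der δ hδ ih
    have h2 := SS.der ⁅X, δ⁆ (IsL.bracket hcomm hXL hδ) ‹SS X Dk w φ›
    have h3 := SS.add h1 h2
    have e : (fun a => δ (X (φ a)) + ⁅X, δ⁆ (φ a)) = fun a => X (δ (φ a)) := by
      funext a
      rw [Derivation.commutator_apply]; ring
    rw [e] at h3
    exact h3
  | @smul w φ ω h ih =>
    have h1 := SS.add (SS.smul (X ω) h) (SS.smul ω ih)
    have e : (fun a => X ω * φ a + ω * X (φ a)) = fun a => X (ω * φ a) := by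
      funext a
      rw [Derivation.leibniz, smul_eq_mul, smul_eq_mul]; ring
    rw [e] at h1
    exact h1
  | add _ _ ih₁ ih₂ =>
    have h1 := SS.add ih₁ ih₂
    simpa only [map_add] using h1

/-- the space spanned by words of length at most `w` -/
noncomputable def WW (Ω : Type*) [Field Ω] [Algebra K Ω] (Dk : Fin m → K → K) (x : Fin n → K)
    (w : ℕ) : Submodule Ω ((Fin n →₀ ℕ) → Ω) :=
  Submodule.span Ω {g | ∃ l : List (Fin m), l.length ≤ w ∧
    g = fun β => algebraMap K Ω (word Dk l (mon x β))}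

lemma WW_mono {Dk : Fin m → K → K} {x : Fin n → K} {w w' : ℕ} (h : w ≤ w') :
    WW Ω Dk x w ≤ WW Ω Dk x w' := by
  apply Submodule.span_mono
  rintro g ⟨l, hl, rfl⟩
  exact ⟨l, hl.trans h, rfl⟩

lemma WW_der {Dk : Fin m → K → K} {x : Fin n → K} {w : ℕ} {δ : Derivation ℤ Ω Ω} (hδ : IsL Dk δ)
    {g : (Fin n →₀ ℕ) → Ω} (hg : g ∈ WW Ω Dk x w) : (fun β => δ (g β)) ∈ WW Ω Dk x (w + 1) := by
  obtain ⟨c, hc⟩ := hδ
  refine Submodule.span_induction (p := fun g _ => (fun β => δ (g β)) ∈ WW Ω Dk x (w + 1))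
    ?_ ?_ ?_ ?_ hg
  · rintro _ ⟨l, hl, rfl⟩
    have e : (fun β => δ (algebraMap K Ω (word Dk l (mon x β))))
        = ∑ i, c i • fun β => algebraMap K Ω (word Dk (i :: l) (mon x β)) := by
      funext β
      rw [hc, Finset.sum_apply]
      rfl
    rw [e]
    refine Submodule.sum_mem _ fun i _ => Submodule.smul_mem _ _ (Submodule.subset_span ?_)
    exact ⟨i :: l, by simpa using hl, rfl⟩
  · simp only [Pi.zero_apply, map_zero]
    exact Submodule.zero_mem _
  · intro f g _ _ hf hg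
    have : (fun β => δ ((f + g) β)) = (fun β => δ (f β)) + fun β => δ (g β) := by
      funext β; simp
    rw [this]
    exact Submodule.add_mem _ hf hg
  · intro ω f hf' hf
    have : (fun β => δ ((ω • f) β)) = ω • (fun β => δ (f β)) + δ ω • f := by
      funext β
      simp [Derivation.leibniz]
      ring
    rw [this]
    exact Submodule.add_mem _ (Submodule.smul_mem _ _ hf)
      (Submodule.smul_mem _ _ (WW_mono (Nat.le_succ w) hf'))

lemma SS_WW {X : Derivation ℤ Ω Ω} {Dk : Fin m → K → K} (hXL : IsL Dk X)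
    {x : Fin n → K} (hx : ∀ j, X (X (algebraMap K Ω (x j))) = 0) (t : ℕ)
    {w : ℕ} {φ : K → Ω} (h : SS X Dk w φ) :
    ∃ g ∈ WW Ω Dk x (w + t), ∀ β : Fin n →₀ ℕ, β.degree ≤ t → φ (mon x β) = g β := by
  induction h with
  | base w l =>
    rcases le_or_gt l t with hl | hl
    · have key : ∀ l : ℕ, (fun β : Fin n →₀ ℕ => (X : Ω → Ω)^[l] (algebraMap K Ω (mon x β)))
          ∈ WW Ω Dk x l := by
        intro l
        induction l with
        | zero => exact Submodule.subset_span ⟨[], le_rfl, rfl⟩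
        | succ l ih =>
          have := WW_der hXL ih
          simpa only [Function.iterate_succ_apply'] using this
      exact ⟨_, WW_mono (by omega) (key l), fun β _ => rfl⟩
    · refine ⟨0, Submodule.zero_mem _, fun β hβ => ?_⟩
      apply iter_ge X (j := (∑ j, β j) + 1)
      · rw [Finsupp.degree_eq_sum] at hβ
        omega
      · rw [mon, map_prod]
        simp only [map_pow]
        exact iter_prod X Finset.univ (fun j => β j) (fun j => algebraMap K Ω (x j)) hx
  | der δ hδ _ ih =>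
    obtain ⟨g, hg, h⟩ := ih
    exact ⟨fun β => δ (g β), WW_mono (by omega) (WW_der hδ hg), fun β hβ => by
      simp only [h β hβ]⟩
  | smul ω _ ih =>
    obtain ⟨g, hg, h⟩ := ih
    exact ⟨ω • g, Submodule.smul_mem _ _ hg, fun β hβ => by simp only [h β hβ]; rfl⟩
  | add _ _ ih₁ ih₂ =>
    obtain ⟨g, hg, h⟩ := ih₁
    obtain ⟨g', hg', h'⟩ := ih₂
    exact ⟨g + g', Submodule.add_mem _ hg hg', fun β hβ => by simp only [h β hβ, h' β hβ]; rfl⟩

/-- vanishing to order more than `w` -/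
def VV (Dk : Fin m → K → K) (x : Fin n → K) (w : ℕ) (R : MvPolynomial (Fin n) Ω) : Prop :=
  ∀ l : List (Fin m), l.length ≤ w → B (fun β => algebraMap K Ω (word Dk l (mon x β))) R = 0

lemma VV_WW {Dk : Fin m → K → K} {x : Fin n → K} {w : ℕ} {R : MvPolynomial (Fin n) Ω}
    (h : VV Dk x w R) {g : (Fin n →₀ ℕ) → Ω} (hg : g ∈ WW Ω Dk x w) : B g R = 0 := by
  refine Submodule.span_induction (p := fun g _ => B g R = 0) ?_ ?_ ?_ ?_ hg
  · rintro _ ⟨l, hl, rfl⟩
    exact h l hl
  · simp [B]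
  · intro f g _ _ hf hg
    have : B (f + g) R = B f R + B g R := by
      simp only [B, Pi.add_apply, mul_add, Finset.sum_add_distrib]
    rw [this, hf, hg, add_zero]
  · intro ω f _ hf
    have : B (ω • f) R = ω * B f R := by
      simp only [B, Pi.smul_apply, smul_eq_mul, Finset.mul_sum]
      exact Finset.sum_congr rfl fun β _ => by ring
    rw [this, hf, mul_zero]

lemma SS.mono {X : Derivation ℤ Ω Ω} {Dk : Fin m → K → K} {w : ℕ} {φ : K → Ω}
    (h : SS X Dk w φ) : ∀ {w' : ℕ}, w ≤ w' → SS X Dk w' φ := by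
  induction h with
  | base w l => intro w' _; exact SS.base w' l
  | der δ hδ _ ih =>
    intro w' hw
    obtain ⟨w'', rfl⟩ : ∃ w'', w' = w'' + 1 := ⟨w' - 1, by omega⟩
    exact SS.der δ hδ (ih (by omega))
  | smul ω _ ih => intro w' hw; exact SS.smul ω (ih hw)
  | add _ _ ih₁ ih₂ => intro w' hw; exact SS.add (ih₁ hw) (ih₂ hw)

lemma SS_word {X : Derivation ℤ Ω Ω} {Dk : Fin m → K → K}
    (hD : ∀ i, ∃ δ : Derivation ℤ Ω Ω, ∀ a, δ (algebraMap K Ω a) = algebraMap K Ω (Dk i a))
    (l : List (Fin m)) : SS X Dk l.length (fun a => algebraMap K Ω (word Dk l a)) := by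
  induction l with
  | nil => exact SS.base 0 0
  | cons i l ih =>
    obtain ⟨δ, hδ⟩ := hD i
    have hL : IsL Dk δ := by
      refine ⟨Pi.single i 1, fun a => ?_⟩
      rw [hδ, Finset.sum_eq_single i]
      · simp
      · intro j _ hj
        simp [Pi.single_eq_of_ne hj]
      · intro h; exact absurd (Finset.mem_univ i) h
    have h1 := SS.der δ hL ih
    simp only [hδ] at h1
    exact h1

/-- propagation of vanishing orders -/
lemma propagation {X : Derivation ℤ Ω Ω} {Dk : Fin m → K → K}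
    (hcomm : ∀ i j a, Dk i (Dk j a) = Dk j (Dk i a)) (hXL : IsL Dk X)
    (hD : ∀ i, ∃ δ : Derivation ℤ Ω Ω, ∀ a, δ (algebraMap K Ω a) = algebraMap K Ω (Dk i a))
    {x : Fin n → K} (hx : ∀ j, X (X (algebraMap K Ω (x j))) = 0) {t w : ℕ}
    {R : MvPolynomial (Fin n) Ω} (hR : ∀ β ∈ R.support, β.degree ≤ t)
    (hRX : VV Dk x (w + t) R) : ∀ j, VV Dk x w ((Xc X)^[j] R) := by
  have hsupp : ∀ j, ∀ β ∈ ((Xc X)^[j] R).support, β.degree ≤ t := by
    intro j
    induction j with
    | zero => exact hR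
    | succ j ih =>
      intro β hβ
      rw [Function.iterate_succ_apply'] at hβ
      exact ih β (support_cmap _ _ hβ)
  have key : ∀ j, ∀ φ : K → Ω, SS X Dk w φ → B (fun β => φ (mon x β)) ((Xc X)^[j] R) = 0 := by
    intro j
    induction j with
    | zero =>
      intro φ hφ
      obtain ⟨g, hg, h⟩ := SS_WW hXL hx t hφ
      rw [Function.iterate_zero, id, B_congr hR h]
      exact VV_WW hRX hg
    | succ j ih =>
      intro φ hφ
      have h1 := B_deriv X (fun β => φ (mon x β)) ((Xc X)^[j] R)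
      rw [ih φ hφ, map_zero] at h1
      have h2 := ih _ (SS.deriv hcomm hXL hφ)
      rw [h2, zero_add] at h1
      rw [Function.iterate_succ_apply', ← h1]
  intro j l hl
  exact key j _ ((SS_word hD l).mono hl)

end main

end Pool.Agent.H14.AlgCore
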