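import Mathlib
import Pool.Agent.H14.AlgCore3

set_option autoImplicit false

namespace Pool.Agent.H14.AlgCore

open MvPolynomial

section
variable {K Ω : Type*} [Field K] [Field Ω] [Algebra K Ω] {m n : ℕ}

/-- polynomials over `K` all of whose `X`-derivatives lie in `I` -/
noncomputable def core (K : Type*) [Field K] [Algebra K Ω] (X : Derivation ℤ Ω Ω)
    (I : Ideal (MvPolynomial (Fin n) Ω)) :
    Ideal (MvPolynomial (Fin n) K) where
  carrier := {Q | ∀ j, (Xc X)^[j] (map (algebraMap K Ω) Q) ∈ I}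
  zero_mem' := by
    intro j
    rw [map_zero, Xc_iter_zero]
    exact I.zero_mem
  add_mem' := by
    intro p q hp hq j
    rw [map_add, Xc_iter_add]
    exact I.add_mem (hp j) (hq j)
  smul_mem' := by
    intro c p hp j
    rw [smul_eq_mul, map_mul]
    exact core_mul j _ _ fun i _ => hp i

lemma mem_core {X : Derivation ℤ Ω Ω} {I : Ideal (MvPolynomial (Fin n) Ω)}
    {Q : MvPolynomial (Fin n) K} :
    Q ∈ core K X I ↔ ∀ j, (Xc X)^[j] (map (algebraMap K Ω) Q) ∈ I := Iff.rfl

/-- the chain of ideals -/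
noncomputable def gg (X : Derivation ℤ Ω Ω) (x : Fin n → K) : ℕ → Ideal (MvPolynomial (Fin n) K)
  | 0 => RingHom.ker (eval x : MvPolynomial (Fin n) K →+* K)
  | w + 1 => core K X ((gg X x w).map (map (algebraMap K Ω)))

lemma gg_prime [CharZero Ω] [IsAlgClosed K] (X : Derivation ℤ Ω Ω) (x : Fin n → K) (w : ℕ) :
    (gg X x w).IsPrime := by
  induction w with
  | zero => exact RingHom.ker_isPrime _
  | succ w ih =>
    have hI := map_prime (Ω := Ω) ih
    constructor
    · intro h
      have h1 : (1 : MvPolynomial (Fin n) K) ∈ gg X x (w + 1) := by rw [h]; trivial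
      have h2 := mem_core.mp h1 0
      rw [Function.iterate_zero, id, map_one] at h2
      exact hI.ne_top ((Ideal.eq_top_iff_one _).mpr h2)
    · intro R S hRS
      by_contra hcon
      push Not at hcon
      have := core_prime (X := X) hI (R := map (algebraMap K Ω) R) (S := map (algebraMap K Ω) S)
        (fun h => hcon.1 (mem_core.mpr h)) (fun h => hcon.2 (mem_core.mpr h))
      apply this
      have h1 := mem_core.mp hRS
      rw [map_mul] at h1
      exact h1

lemma gg_succ_le (X : Derivation ℤ Ω Ω) (x : Fin n → K) (w : ℕ) : gg X x (w + 1) ≤ gg X x w := by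
  intro Q hQ
  have h := mem_core.mp hQ 0
  rw [Function.iterate_zero, id] at h
  exact (map_mem_map_iff (Module.Basis.ofVectorSpace K Ω)).mp h

lemma gg_anti (X : Derivation ℤ Ω Ω) (x : Fin n → K) : Antitone (gg X x) :=
  antitone_nat_of_succ_le (gg_succ_le X x)

lemma B_comp {ι : Type*} (b : Module.Basis ι K Ω) (k : (Fin n →₀ ℕ) → K) (i : ι)
    (R : MvPolynomial (Fin n) Ω) :
    B (fun β => algebraMap K Ω (k β)) (map (algebraMap K Ω) (comp b i R))
      = algebraMap K Ω (b.repr (B (fun β => algebraMap K Ω (k β)) R) i) := by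
  have hs : (map (algebraMap K Ω) (comp b i R)).support ⊆ R.support :=
    (support_map_subset _ _).trans (support_cmap _ _)
  rw [B_eq_of_subset _ _ hs, B, map_sum, Finset.sum_apply', map_sum]
  refine Finset.sum_congr rfl fun β _ => ?_
  rw [coeff_map, coeff_comp, ← map_mul]
  congr 1
  rw [mul_comm (R.coeff β), ← Algebra.smul_def, map_smul, Finsupp.smul_apply, smul_eq_mul, mul_comm]

lemma VV_comp {ι : Type*} (b : Module.Basis ι K Ω) {Dk : Fin m → K → K} {x : Fin n → K} {w : ℕ}
    {R : MvPolynomial (Fin n) Ω} (h : VV Dk x w R) (i : ι) :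
    VV Dk x w (map (algebraMap K Ω) (comp b i R)) := by
  intro l hl
  rw [B_comp b (fun β => word Dk l (mon x β)) i R, h l hl]
  simp

lemma mem_gg {X : Derivation ℤ Ω Ω} {Dk : Fin m → K → K}
    (hcomm : ∀ i j a, Dk i (Dk j a) = Dk j (Dk i a)) (hXL : IsL Dk X)
    (hD : ∀ i, ∃ δ : Derivation ℤ Ω Ω, ∀ a, δ (algebraMap K Ω a) = algebraMap K Ω (Dk i a))
    {x : Fin n → K} (hx : ∀ j, X (X (algebraMap K Ω (x j))) = 0) {t : ℕ} (w : ℕ) :
    ∀ Q : MvPolynomial (Fin n) K, (∀ β ∈ Q.support, β.degree ≤ t) →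
      VV Dk x (w * t) (map (algebraMap K Ω) Q) → Q ∈ gg X x w := by
  induction w with
  | zero =>
    intro Q _ hV
    have h := hV [] (Nat.zero_le _)
    rw [gg, RingHom.mem_ker]
    apply (algebraMap K Ω).injective
    rw [map_zero, ← h, B_eq_of_subset _ _ (support_map_subset _ _), eval_eq', map_sum]
    refine Finset.sum_congr rfl fun β _ => ?_
    rw [coeff_map, ← map_mul]
    rfl
  | succ w ih =>
    intro Q hQ hV
    have hs : ∀ β ∈ (map (algebraMap K Ω) Q).support, β.degree ≤ t :=
      fun β hβ => hQ β (support_map_subset _ _ hβ)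
    have hV' : VV Dk x (w * t + t) (map (algebraMap K Ω) Q) := by
      have : (w + 1) * t = w * t + t := by ring
      rwa [this] at hV
    have h := propagation hcomm hXL hD hx hs hV'
    rw [gg, mem_core]
    intro j
    set b := Module.Basis.ofVectorSpace K Ω
    rw [mem_map_iff b]
    intro i
    apply ih
    · intro β hβ
      have h1 : β ∈ ((Xc X)^[j] (map (algebraMap K Ω) Q)).support := support_cmap _ _ hβ
      have h2 : ∀ j, ((Xc X)^[j] (map (algebraMap K Ω) Q)).support ⊆ (map (algebraMap K Ω) Q).support := by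
        intro j
        induction j with
        | zero => exact subset_rfl
        | succ j ih =>
          rw [Function.iterate_succ_apply']
          exact (support_cmap _ _).trans ih
      exact hs β (h2 j h1)
    · exact VV_comp b (h j) i

lemma word_eq {Dk : Fin m → K → K} (hcomm : ∀ i j a, Dk i (Dk j a) = Dk j (Dk i a))
    (W : ℕ) : ∃ op : (Fin m → Fin (W + 1)) → K → K, ∀ l : List (Fin m), l.length ≤ W →
      ∃ α, word Dk l = op α := by
  classical
  have : LeftCommutative (fun (i : Fin m) (b : K) => Dk i b) := ⟨fun i j b => hcomm i j b⟩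
  refine ⟨fun α a => Multiset.foldr (fun (i : Fin m) (b : K) => Dk i b) a
    (∑ i, (α i : ℕ) • ({i} : Multiset (Fin m))), fun l hl => ?_⟩
  refine ⟨fun i => ⟨l.count i, Nat.lt_succ_of_le ((List.count_le_length).trans hl)⟩, ?_⟩
  funext a
  have e : (l : Multiset (Fin m)) = ∑ i, (l.count i) • ({i} : Multiset (Fin m)) := by
    ext j
    rw [Multiset.count_sum', Finset.sum_eq_single j]
    · simp
    · intro i _ hij
      simp [Multiset.count_singleton, Ne.symm hij]
    · intro h; exact absurd (Finset.mem_univ j) h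
  show word Dk l a = Multiset.foldr _ a (∑ i, (l.count i) • ({i} : Multiset (Fin m)))
  rw [← e, Multiset.coe_foldr]
  rfl

lemma pow_compare {n m : ℕ} (hmn : m < n) :
    ((n * (n * n ^ (2 * m))) + 1) ^ m < (n ^ (2 * m) + 1) ^ n := by
  have hn : 1 ≤ n := by omega
  set q := n ^ (2 * m) with hq
  have h1 : n * (n * q) + 1 ≤ n ^ 2 * (q + 1) := by nlinarith [Nat.one_le_pow 2 n hn]
  calc (n * (n * q) + 1) ^ m ≤ (n ^ 2 * (q + 1)) ^ m := Nat.pow_le_pow_left h1 m
    _ = q * (q + 1) ^ m := by rw [mul_pow, ← pow_mul, hq]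
    _ < (q + 1) * (q + 1) ^ m := by
        apply Nat.mul_lt_mul_of_pos_right (Nat.lt_succ_self q)
        positivity
    _ = (q + 1) ^ (m + 1) := by rw [pow_succ]; ring
    _ ≤ (q + 1) ^ n := Nat.pow_le_pow_right (Nat.succ_pos q) hmn

lemma exists_vanishing (hmn : m < n) {Dk : Fin m → K → K}
    (hcomm : ∀ i j a, Dk i (Dk j a) = Dk j (Dk i a)) (x : Fin n → K) :
    ∃ (t : ℕ) (Q : MvPolynomial (Fin n) K), Q ≠ 0 ∧ (∀ β ∈ Q.support, β.degree ≤ t) ∧
      VV Dk x (n * t) (map (algebraMap K Ω) Q) := by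
  classical
  set q := n ^ (2 * m) with hq
  obtain ⟨op, hop⟩ := word_eq hcomm (n * (n * q))
  let e : (Fin n → Fin (q + 1)) → (Fin n →₀ ℕ) :=
    fun β => Finsupp.equivFunOnFinite.symm (fun j => (β j : ℕ))
  have he : Function.Injective e := by
    intro β γ h
    funext j
    have := DFunLike.congr_fun h j
    exact Fin.ext this
  let Λ : ((Fin n → Fin (q + 1)) → K) →ₗ[K] ((Fin m → Fin (n * (n * q) + 1)) → K) :=
    { toFun := fun c α => ∑ β, c β * op α (mon x (e β))
      map_add' := by
        intro c d; funext α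
        simp only [Pi.add_apply, add_mul, Finset.sum_add_distrib]
      map_smul' := by
        intro r c; funext α
        simp only [Pi.smul_apply, smul_eq_mul, RingHom.id_apply, Finset.mul_sum]
        exact Finset.sum_congr rfl fun β _ => by ring }
  have hker : LinearMap.ker Λ ≠ ⊥ := by
    apply LinearMap.ker_ne_bot_of_finrank_lt
    rw [Module.finrank_fintype_fun_eq_card, Module.finrank_fintype_fun_eq_card, Fintype.card_fun,
      Fintype.card_fun, Fintype.card_fin, Fintype.card_fin, Fintype.card_fin, Fintype.card_fin]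
    exact pow_compare hmn
  obtain ⟨c, hc, hc0⟩ := Submodule.exists_mem_ne_zero_of_ne_bot hker
  rw [LinearMap.mem_ker] at hc
  let Q : MvPolynomial (Fin n) K := ∑ β, monomial (e β) (c β)
  have hcoeff : ∀ β, Q.coeff (e β) = c β := by
    intro β
    rw [coeff_sum, Finset.sum_eq_single β]
    · simp
    · intro γ _ hγ
      rw [coeff_monomial, if_neg (fun h => hγ (he h))]
    · intro h; exact absurd (Finset.mem_univ β) h
  have hsupp : Q.support ⊆ Finset.univ.image e := by
    intro γ hγ
    by_contra hcon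
    rw [mem_support_iff] at hγ
    apply hγ
    rw [coeff_sum]
    refine Finset.sum_eq_zero fun β _ => ?_
    rw [coeff_monomial, if_neg]
    intro h
    exact hcon (Finset.mem_image.mpr ⟨β, Finset.mem_univ β, h⟩)
  refine ⟨n * q, Q, ?_, ?_, ?_⟩
  · intro h
    apply hc0
    funext β
    rw [← hcoeff β, h, coeff_zero]; rfl
  · intro γ hγ
    obtain ⟨β, _, rfl⟩ := Finset.mem_image.mp (hsupp hγ)
    rw [Finsupp.degree_eq_sum]
    calc ∑ j, (e β) j ≤ ∑ _j : Fin n, q := Finset.sum_le_sum fun j _ => Nat.le_of_lt_succ (β j).2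
      _ = n * q := by simp
  · intro l hl
    obtain ⟨α, hα⟩ := hop l hl
    rw [B_eq_of_subset _ _ ((support_map_subset _ _).trans hsupp),
      Finset.sum_image (fun a _ b _ h => he h)]
    have h1 := congrFun hc α
    have h2 : ∑ β, c β * op α (mon x (e β)) = 0 := h1
    calc ∑ β, (map (algebraMap K Ω) Q).coeff (e β) * algebraMap K Ω (word Dk l (mon x (e β)))
        = ∑ β, algebraMap K Ω (c β * op α (mon x (e β))) := by
          refine Finset.sum_congr rfl fun β _ => ?_
          rw [coeff_map, hcoeff, hα, map_mul]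
      _ = algebraMap K Ω (∑ β, c β * op α (mon x (e β))) := (map_sum _ _ _).symm
      _ = 0 := by rw [h2, map_zero]

/-- the chain stops before it reaches zero -/
lemma exists_stable [CharZero Ω] [IsAlgClosed K] (X : Derivation ℤ Ω Ω) (x : Fin n → K)
    (h : gg X x n ≠ ⊥) : ∃ w < n, gg X x w = gg X x (w + 1) := by
  by_contra hcon
  push Not at hcon
  have hlt : ∀ w < n, gg X x (w + 1) < gg X x w :=
    fun w hw => lt_of_le_of_ne (gg_succ_le X x w) (Ne.symm (hcon w hw))
  let f : Fin (n + 2) → PrimeSpectrum (MvPolynomial (Fin n) K) := fun i =>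
    if i = 0 then ⟨⊥, Ideal.isPrime_bot⟩ else ⟨gg X x (n + 1 - i), gg_prime X x _⟩
  have hf : StrictMono f := by
    rw [Fin.strictMono_iff_lt_succ]
    intro i
    rw [← PrimeSpectrum.asIdeal_lt_asIdeal]
    by_cases hi : i.castSucc = 0
    · have h1 : (f i.castSucc).asIdeal = ⊥ := by simp only [f, hi, if_true]
      have hi' : i = 0 := by
        apply Fin.ext
        have := congrArg Fin.val hi
        simpa using this
      have h2 : (f i.succ).asIdeal = gg X x n := by
        simp only [f, Fin.succ_ne_zero, if_false]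
        rw [hi']
        simp
      rw [h1, h2]
      exact bot_lt_iff_ne_bot.mpr h
    · have hi' : (i : ℕ) ≠ 0 := by
        intro h0
        exact hi (Fin.ext (by simpa using h0))
      have h1 : (f i.castSucc).asIdeal = gg X x (n + 1 - i) := by
        simp only [f, hi, if_false, Fin.val_castSucc]
      have h2 : (f i.succ).asIdeal = gg X x (n + 1 - (i + 1)) := by
        simp only [f, Fin.succ_ne_zero, if_false, Fin.val_succ]
      rw [h1, h2]
      have := hlt (n + 1 - (i + 1)) (by omega)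
      have e : n + 1 - (i + 1) + 1 = n + 1 - i := by have := i.2; omega
      rwa [e] at this
  have h1 := Order.LTSeries.length_le_krullDim (LTSeries.mk (n + 1) f hf)
  have h2 : Order.krullDim (PrimeSpectrum (MvPolynomial (Fin n) K)) = n := by
    have := MvPolynomial.ringKrullDim_of_isNoetherianRing (R := K) (ι := Fin n)
    rw [ringKrullDim_eq_zero_of_field] at this
    simpa [ringKrullDim] using this
  rw [h2] at h1
  have h3 : ((n + 1 : ℕ) : WithBot ℕ∞) ≤ (n : WithBot ℕ∞) := h1
  have h4 : n + 1 ≤ n := by exact_mod_cast h3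
  omega

/-- **Algebraic core.** -/
theorem main [CharZero Ω] [IsAlgClosed K] (hmn : m < n)
    (X : Derivation ℤ Ω Ω) (D : Fin m → Derivation ℤ Ω Ω) (Dk : Fin m → K → K)
    (hD : ∀ i a, D i (algebraMap K Ω a) = algebraMap K Ω (Dk i a))
    (hcomm : ∀ i j a, Dk i (Dk j a) = Dk j (Dk i a))
    (v : Fin m → Ω)
    (hX : ∀ a : K, X (algebraMap K Ω a) = ∑ i, v i * algebraMap K Ω (Dk i a))
    (x : Fin n → K) (hx : ∀ j, X (X (algebraMap K Ω (x j))) = 0) :
    ∃ P : MvPolynomial (Fin n) K, P ≠ 0 ∧ (∀ β, X (algebraMap K Ω (P.coeff β)) = 0) ∧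
      eval x P = 0 ∧ ∃ β, P.coeff β = 1 := by
  classical
  have hXL : IsL Dk X := ⟨v, hX⟩
  have hD' : ∀ i, ∃ δ : Derivation ℤ Ω Ω, ∀ a, δ (algebraMap K Ω a) = algebraMap K Ω (Dk i a) :=
    fun i => ⟨D i, hD i⟩
  obtain ⟨t, Q, hQ0, hQt, hQV⟩ := exists_vanishing (Ω := Ω) hmn hcomm x
  have hQn : Q ∈ gg X x n := mem_gg hcomm hXL hD' hx n Q hQt hQV
  have hne : gg X x n ≠ ⊥ := by
    intro h
    rw [h] at hQn
    exact hQ0 (by simpa using hQn)
  obtain ⟨w, hw, hww⟩ := exists_stable X x hne
  -- choose an element of minimal support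
  have hex : ∃ k : ℕ, ∃ Q ∈ gg X x w, Q ≠ 0 ∧ Q.support.card = k :=
    ⟨_, Q, gg_anti X x hw.le hQn, hQ0, rfl⟩
  obtain ⟨P₀, hP₀, hP₀0, hcard⟩ := Nat.find_spec hex
  have hmin : ∀ R ∈ gg X x w, R.support.card < P₀.support.card → R = 0 := by
    intro R hR hlt
    by_contra hR0
    rw [hcard] at hlt
    exact Nat.find_min hex hlt ⟨R, hR, hR0, rfl⟩
  obtain ⟨β₀, hβ₀⟩ : ∃ β₀, P₀.coeff β₀ ≠ 0 := by
    by_contra hcon
    push Not at hcon
    exact hP₀0 (MvPolynomial.ext _ _ (by simpa using hcon))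
  set P : MvPolynomial (Fin n) K := C (P₀.coeff β₀)⁻¹ * P₀ with hP
  have hPc : ∀ β, P.coeff β = (P₀.coeff β₀)⁻¹ * P₀.coeff β := fun β => by rw [hP, coeff_C_mul]
  have hP1 : P.coeff β₀ = 1 := by rw [hPc, inv_mul_cancel₀ hβ₀]
  have hPg : P ∈ gg X x w := Ideal.mul_mem_left _ _ hP₀
  have hPs : P.support = P₀.support := by
    ext β
    rw [mem_support_iff, mem_support_iff, hPc]
    simp [hβ₀]
  have hXP : Xc X (map (algebraMap K Ω) P) = 0 := by
    have h1 : P ∈ gg X x (w + 1) := hww ▸ hPg
    have h2 := mem_core.mp h1 1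
    rw [Function.iterate_one] at h2
    apply comp_ext (Module.Basis.ofVectorSpace K Ω)
    intro i
    have h3 := (mem_map_iff (Module.Basis.ofVectorSpace K Ω)).mp h2 i
    apply hmin _ h3
    apply Finset.card_lt_card
    rw [Finset.ssubset_iff_of_subset]
    · refine ⟨β₀, ?_, ?_⟩
      · rw [mem_support_iff]; exact hβ₀
      · rw [mem_support_iff, not_not, coeff_comp, coeff_Xc, coeff_map, hP1, map_one,
          Derivation.map_one_eq_zero]
        simp
    · intro β hβ
      have h4 : β ∈ (map (algebraMap K Ω) P).support := support_cmap _ _ (support_cmap _ _ hβ)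
      rw [← hPs]
      exact support_map_subset _ _ h4
  refine ⟨P, ?_, ?_, ?_, β₀, hP1⟩
  · intro h
    rw [h, coeff_zero] at hP1
    exact zero_ne_one hP1
  · intro β
    rw [← coeff_map, ← coeff_Xc, hXP, coeff_zero]
  · have := gg_anti X x (Nat.zero_le w) hPg
    simpa [gg, RingHom.mem_ker] using this

end

end Pool.Agent.H14.AlgCore
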